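import Pool.Agent.K6.H5.TL.Tile

/-! The configurations with exactly one bad site. -/

set_option autoImplicit false
set_option linter.unusedSectionVars false

namespace Pool.Agent.K6.H5.TL

open Tile Ph

/-- the denominator of the average `2 ^ y / Mq y` of the digits of the row `y` -/
def Mq : ℕ → ℕ
  | 0 => 1
  | y + 1 => if 3 * Mq y ≤ 2 * 2 ^ y then 3 * Mq y else Mq y

/-- the type of the row `y` -/
def kk (y : ℕ) : Bool := decide (3 * Mq y ≤ 2 * 2 ^ y)

theorem Mq_succ (y : ℕ) : Mq (y + 1) = kap (kk y) * Mq y := by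
  rw [Mq]
  unfold kap kk
  by_cases h : 3 * Mq y ≤ 2 * 2 ^ y
  · rw [if_pos h, if_pos (by simpa using h)]
  · rw [if_neg h, if_neg (by simpa using h), one_mul]

theorem Mq_bd (y : ℕ) : 0 < Mq y ∧ Mq y ≤ 2 ^ y ∧ 2 ^ y < 3 * Mq y := by
  induction y with
  | zero => simp [Mq]
  | succ y ih =>
    rw [Mq, pow_succ]
    split_ifs with h
    · omega
    · omega

/-- the integer part of `x 2 ^ y / Mq y` -/
def Fq (x y : ℕ) : ℕ := x * 2 ^ y / Mq y

theorem Fq_le (x y : ℕ) : Fq x y * Mq y ≤ x * 2 ^ y := Nat.div_mul_le_self _ _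

theorem Fq_lt (x y : ℕ) : x * 2 ^ y < (Fq x y + 1) * Mq y := by
  have := Nat.lt_div_mul_add (a := x * 2 ^ y) (Mq_bd y).1
  unfold Fq
  rw [add_mul, one_mul]
  exact this

theorem Fq_succ_ge (x y : ℕ) : Fq x y + 1 ≤ Fq (x + 1) y := by
  obtain ⟨h0, h1, -⟩ := Mq_bd y
  have h2 := Fq_le x y
  have h3 := Fq_lt (x + 1) y
  have h4 : Fq x y * Mq y + Mq y < (Fq (x + 1) y + 1) * Mq y := by
    rw [add_mul x 1, one_mul] at h3
    omega
  have h5 : (Fq x y + 1) * Mq y < (Fq (x + 1) y + 1) * Mq y := by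
    rw [add_mul (Fq x y), one_mul]; exact h4
  have := Nat.lt_of_mul_lt_mul_right h5
  omega

theorem Fq_succ_le (x y : ℕ) : Fq (x + 1) y ≤ Fq x y + 3 := by
  obtain ⟨h0, -, h1⟩ := Mq_bd y
  have h2 := Fq_lt x y
  have h3 := Fq_le (x + 1) y
  have h5 : Fq (x + 1) y * Mq y < (Fq x y + 4) * Mq y := by
    have e : (Fq x y + 4) * Mq y = (Fq x y + 1) * Mq y + 3 * Mq y := by ring
    rw [add_mul x 1, one_mul] at h3
    rw [e]
    omega
  have := Nat.lt_of_mul_lt_mul_right h5
  omega

theorem kap_le (k : Bool) : kap k ≤ 3 := by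
  unfold kap; split <;> omega

theorem car_lo (x y : ℕ) : kap (kk y) * Fq x (y + 1) ≤ 2 * Fq x y + 1 := by
  have h2 := Fq_lt x y
  have h3 := Fq_le x (y + 1)
  rw [Mq_succ, pow_succ] at h3
  have h5 : (kap (kk y) * Fq x (y + 1)) * Mq y < (2 * Fq x y + 2) * Mq y := by
    have e1 : (kap (kk y) * Fq x (y + 1)) * Mq y = Fq x (y + 1) * (kap (kk y) * Mq y) := by ring
    have e2 : (2 * Fq x y + 2) * Mq y = 2 * ((Fq x y + 1) * Mq y) := by ring
    have e3 : x * (2 ^ y * 2) = 2 * (x * 2 ^ y) := by ring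
    rw [e1, e2]
    rw [e3] at h3
    omega
  have := Nat.lt_of_mul_lt_mul_right h5
  omega

theorem car_hi (x y : ℕ) : 2 * Fq x y ≤ kap (kk y) * Fq x (y + 1) + 2 := by
  have h2 := Fq_le x y
  have h3 := Fq_lt x (y + 1)
  rw [Mq_succ, pow_succ] at h3
  have hk := kap_le (kk y)
  have h5 : (2 * Fq x y) * Mq y < (kap (kk y) * Fq x (y + 1) + kap (kk y)) * Mq y := by
    have e1 : (2 * Fq x y) * Mq y = 2 * (Fq x y * Mq y) := by ring
    have e2 : (kap (kk y) * Fq x (y + 1) + kap (kk y)) * Mq y =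
      (Fq x (y + 1) + 1) * (kap (kk y) * Mq y) := by ring
    have e3 : x * (2 ^ y * 2) = 2 * (x * 2 ^ y) := by ring
    rw [e1, e2]
    rw [e3] at h3
    omega
  have := Nat.lt_of_mul_lt_mul_right h5
  omega

/-- the digit, minus one -/
def aa (x y : ℕ) : Fin 3 := ⟨Fq (x + 1) y - Fq x y - 1, by
  have := Fq_succ_le x y
  omega⟩

/-- the carry, plus one -/
def cc (x y : ℕ) : Fin 4 := ⟨2 * Fq x y + 1 - kap (kk y) * Fq x (y + 1), by
  have := car_hi x y
  omega⟩

theorem aa_cc (x y : ℕ) : 2 * ((aa x y : ℕ) + 1) + (cc x y : ℕ) =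
    kap (kk y) * ((aa x (y + 1) : ℕ) + 1) + (cc (x + 1) y : ℕ) := by
  unfold aa cc
  simp only
  have h1 := Fq_succ_ge x y
  have h2 := Fq_succ_ge x (y + 1)
  have h3 := car_lo x y
  have h4 := car_lo (x + 1) y
  have e1 : Fq (x + 1) y - Fq x y - 1 + 1 = Fq (x + 1) y - Fq x y := by omega
  have e2 : Fq (x + 1) (y + 1) - Fq x (y + 1) - 1 + 1 = Fq (x + 1) (y + 1) - Fq x (y + 1) := by
    omega
  rw [e1, e2, Nat.mul_sub, Nat.mul_sub]
  have h5 : kap (kk y) * Fq x (y + 1) ≤ kap (kk y) * Fq (x + 1) (y + 1) :=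
    Nat.mul_le_mul_left _ (by omega)
  omega

/-- the phase -/
def phs (x y : ℕ) : Ph := if x < y then U else if x = y then D else V

/-- the configuration with the free bits `β` -/
def cfg (β : ℕ → ℕ → Bool) (x y : ℕ) : Tile :=
  if y = 0 then (if x = 0 then X else H) else
    if x = 0 then W else I (phs x y) (kk y) (aa x y) (cc x y) (β x y)

theorem cfg_00 (β : ℕ → ℕ → Bool) : cfg β 0 0 = X := by simp [cfg]

theorem cfg_x0 (β : ℕ → ℕ → Bool) {x : ℕ} (h : x ≠ 0) : cfg β x 0 = H := by simp [cfg, h]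

theorem cfg_0y (β : ℕ → ℕ → Bool) {y : ℕ} (h : y ≠ 0) : cfg β 0 y = W := by simp [cfg, h]

theorem cfg_I (β : ℕ → ℕ → Bool) {x y : ℕ} (hx : x ≠ 0) (hy : y ≠ 0) :
    cfg β x y = I (phs x y) (kk y) (aa x y) (cc x y) (β x y) := by simp [cfg, hx, hy]

theorem val_succ {L : ℕ} [NeZero L] (x : ZMod L) :
    ((x + 1).val = x.val + 1 ∧ x.val + 1 < L) ∨ ((x + 1).val = 0 ∧ x.val + 1 = L) := by
  have h1 : (x + 1).val = (x.val + 1) % L := by
    rw [ZMod.val_add, ZMod.val_one_eq_one_mod, Nat.add_mod_mod]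
  have h2 := ZMod.val_lt x
  rcases Nat.lt_or_ge (x.val + 1) L with h | h
  · left
    exact ⟨by rw [h1, Nat.mod_eq_of_lt h], h⟩
  · right
    have h3 : x.val + 1 = L := by omega
    exact ⟨by rw [h1, h3, Nat.mod_self], h3⟩

theorem cfg_good_nat (β : ℕ → ℕ → Bool) {L a b a' b' : ℕ} (ha : a < L) (hb : b < L)
    (ha' : (a' = a + 1 ∧ a + 1 < L) ∨ (a' = 0 ∧ a + 1 = L))
    (hb' : (b' = b + 1 ∧ b + 1 < L) ∨ (b' = 0 ∧ b + 1 = L)) (h0 : ¬ (a = 0 ∧ b = 0)) :
    Good (cfg β a b) (cfg β a' b) (cfg β a b') := by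
  by_cases hb0 : b = 0
  · subst hb0
    have ha0 : a ≠ 0 := fun h => h0 ⟨h, rfl⟩
    rw [cfg_x0 β ha0]
    refine ⟨?_, ?_, fun h => absurd rfl h⟩
    · rcases ha' with ⟨rfl, -⟩ | ⟨rfl, -⟩
      · left; exact cfg_x0 β (by omega)
      · right; exact cfg_00 β
    · rcases hb' with ⟨rfl, -⟩ | ⟨rfl, h⟩
      · rw [cfg_I β ha0 (by omega)]
        show some (phs a (0 + 1)) = some V ∨ some (phs a (0 + 1)) = some D
        unfold phs
        rw [if_neg (by omega)]
        by_cases h1 : a = 0 + 1
        · rw [if_pos h1]; right; rfl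
        · rw [if_neg h1]; left; rfl
      · omega
  · by_cases ha0 : a = 0
    · subst ha0
      rw [cfg_0y β hb0]
      refine ⟨?_, ?_, fun h => absurd rfl h⟩
      · rcases ha' with ⟨rfl, -⟩ | ⟨rfl, h⟩
        · rw [cfg_I β (by omega) hb0]
          show some (phs (0 + 1) b) = some U ∨ some (phs (0 + 1) b) = some D
          unfold phs
          by_cases h1 : 0 + 1 < b
          · rw [if_pos h1]; left; rfl
          · rw [if_neg h1, if_pos (by omega)]; right; rfl
        · omega
      · rcases hb' with ⟨rfl, -⟩ | ⟨rfl, -⟩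
        · left; exact cfg_0y β (by omega)
        · right; exact cfg_00 β
    · rw [cfg_I β ha0 hb0]
      rcases Nat.lt_trichotomy a b with hab | hab | hab
      · have hp : phs a b = U := by unfold phs; rw [if_pos hab]
        rw [hp]
        refine ⟨?_, ?_, ?_⟩
        · show ph _ = some U ∨ ph _ = some D
          rcases ha' with ⟨rfl, -⟩ | ⟨rfl, h⟩
          · rw [cfg_I β (by omega) hb0]
            show some (phs (a + 1) b) = some U ∨ some (phs (a + 1) b) = some D
            unfold phs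
            by_cases h1 : a + 1 < b
            · rw [if_pos h1]; left; rfl
            · rw [if_neg h1, if_pos (by omega)]; right; rfl
          · omega
        · show ph _ = some U ∨ _ = H
          rcases hb' with ⟨rfl, -⟩ | ⟨rfl, h⟩
          · rw [cfg_I β ha0 (by omega)]
            left
            show some (phs a (b + 1)) = some U
            unfold phs; rw [if_pos (by omega)]
          · right; exact cfg_x0 β ha0
        · intro _ hr hu
          rcases ha' with ⟨rfl, -⟩ | ⟨rfl, h⟩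
          · rcases hb' with ⟨rfl, -⟩ | ⟨rfl, h⟩
            · rw [cfg_I β (by omega) hb0, cfg_I β ha0 (by omega)]
              exact ⟨rfl, aa_cc a b⟩
            · rw [cfg_x0 β ha0] at hu
              exact absurd rfl hu
          · rw [cfg_0y β hb0] at hr
            exact absurd rfl hr
      · have hp : phs a b = D := by unfold phs; rw [if_neg (by omega), if_pos hab]
        rw [hp]
        refine ⟨?_, ?_, ?_⟩
        · show ph _ = some V ∨ _ = W
          rcases ha' with ⟨rfl, -⟩ | ⟨rfl, h⟩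
          · rw [cfg_I β (by omega) hb0]
            left
            show some (phs (a + 1) b) = some V
            unfold phs; rw [if_neg (by omega), if_neg (by omega)]
          · right; exact cfg_0y β hb0
        · show ph _ = some U ∨ _ = H
          rcases hb' with ⟨rfl, -⟩ | ⟨rfl, h⟩
          · rw [cfg_I β ha0 (by omega)]
            left
            show some (phs a (b + 1)) = some U
            unfold phs; rw [if_pos (by omega)]
          · right; exact cfg_x0 β ha0
        · intro _ hr hu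
          rcases ha' with ⟨rfl, -⟩ | ⟨rfl, h⟩
          · rcases hb' with ⟨rfl, -⟩ | ⟨rfl, h⟩
            · rw [cfg_I β (by omega) hb0, cfg_I β ha0 (by omega)]
              exact ⟨rfl, aa_cc a b⟩
            · rw [cfg_x0 β ha0] at hu
              exact absurd rfl hu
          · rw [cfg_0y β hb0] at hr
            exact absurd rfl hr
      · have hp : phs a b = V := by unfold phs; rw [if_neg (by omega), if_neg (by omega)]
        rw [hp]
        refine ⟨?_, ?_, ?_⟩
        · show ph _ = some V ∨ _ = W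
          rcases ha' with ⟨rfl, -⟩ | ⟨rfl, h⟩
          · rw [cfg_I β (by omega) hb0]
            left
            show some (phs (a + 1) b) = some V
            unfold phs; rw [if_neg (by omega), if_neg (by omega)]
          · right; exact cfg_0y β hb0
        · show ph _ = some V ∨ ph _ = some D
          rcases hb' with ⟨rfl, -⟩ | ⟨rfl, h⟩
          · rw [cfg_I β ha0 (by omega)]
            show some (phs a (b + 1)) = some V ∨ some (phs a (b + 1)) = some D
            unfold phs
            rw [if_neg (by omega)]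
            by_cases h1 : a = b + 1
            · rw [if_pos h1]; right; rfl
            · rw [if_neg h1]; left; rfl
          · omega
        · intro _ hr hu
          rcases ha' with ⟨rfl, -⟩ | ⟨rfl, h⟩
          · rcases hb' with ⟨rfl, -⟩ | ⟨rfl, h⟩
            · rw [cfg_I β (by omega) hb0, cfg_I β ha0 (by omega)]
              exact ⟨rfl, aa_cc a b⟩
            · rw [cfg_x0 β ha0] at hu
              exact absurd rfl hu
          · rw [cfg_0y β hb0] at hr
            exact absurd rfl hr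

/-- the configuration on the torus -/
def tcfg {L : ℕ} (β : ℕ → ℕ → Bool) (z : ZMod L × ZMod L) : Tile := cfg β z.1.val z.2.val

/-- **The configuration has exactly one bad site.** -/
theorem tcfg_good {L : ℕ} [NeZero L] (β : ℕ → ℕ → Bool) (z : ZMod L × ZMod L) :
    GoodAt (tcfg β) z ↔ z ≠ 0 := by
  constructor
  · rintro h rfl
    have h1 := h.1
    have h2 : tcfg β (0 : ZMod L × ZMod L) = X := by
      unfold tcfg
      simp [cfg_00]
    rw [h2] at h1
    exact h1
  · intro hz
    refine cfg_good_nat β (ZMod.val_lt z.1) (ZMod.val_lt z.2) (val_succ z.1) (val_succ z.2) ?_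
    rintro ⟨h1, h2⟩
    exact hz (Prod.ext ((ZMod.val_eq_zero _).1 h1) ((ZMod.val_eq_zero _).1 h2))

end Pool.Agent.K6.H5.TL
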