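import Pool.Agent.K6.H5.TL.Ham

/-! Counting the eigenvalues. -/

set_option autoImplicit false
set_option linter.unusedSectionVars false

open scoped BigOperators Matrix InnerProductSpace
open Finset Matrix Pool.Agent.TH235.PP
open Pool.Agent.Results.MP_953b23_mp.OverlapBoosting
open Pool.Agent.Results.MP_953b23_mp.ThermalCriterion

namespace Pool.Agent.K6.H5.TL

open Tile Ph

/-- independent eigenvectors count the eigenvalues -/
theorem count_ge {n : Type*} [Fintype n] [DecidableEq n] {H : Matrix n n ℂ} (hH : H.IsHermitian)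
    (μ : ℝ) {ι : Type*} [Fintype ι] (v : ι → n → ℂ) (hv : LinearIndependent ℂ v)
    (he : ∀ i, H *ᵥ v i = (μ : ℂ) • v i) :
    Fintype.card ι ≤ (univ.filter fun j => hH.eigenvalues j = μ).card := by
  classical
  have hor : ∀ i j, hH.eigenvalues j ≠ μ →
      ⟪hH.eigenvectorBasis j, (WithLp.toLp 2 (v i) : EuclideanSpace ℂ n)⟫_ℂ = 0 := by
    intro i j hj
    have h1 : H *ᵥ (hH.eigenvectorBasis j).ofLp =
        (hH.eigenvalues j : ℂ) • (hH.eigenvectorBasis j).ofLp := hH.mulVec_eigenvectorBasis j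
    have h2 := ip_symm_herm H hH (hH.eigenvectorBasis j).ofLp (v i)
    rw [h1, he i, ip_smul_left, ip_smul_right, Complex.conj_ofReal] at h2
    have h3 : ((hH.eigenvalues j : ℂ) - μ) * ip (hH.eigenvectorBasis j).ofLp (v i) = 0 := by
      rw [sub_mul]
      first
        | exact sub_eq_zero.2 h2
        | exact sub_eq_zero.2 h2.symm
    rcases mul_eq_zero.1 h3 with h4 | h4
    · exfalso
      apply hj
      have := sub_eq_zero.1 h4
      exact_mod_cast this
    · rw [ip_eq] at h4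
      exact h4
  have hli : LinearIndependent ℂ fun i => (WithLp.toLp 2 (v i) : EuclideanSpace ℂ n) :=
    hv.map' (WithLp.linearEquiv 2 ℂ (n → ℂ)).symm.toLinearMap (LinearEquiv.ker _)
  have hsp : Set.range (fun i => (WithLp.toLp 2 (v i) : EuclideanSpace ℂ n)) ⊆
      Submodule.span ℂ (Set.range fun j : {j // hH.eigenvalues j = μ} =>
        hH.eigenvectorBasis j.1) := by
    rintro _ ⟨i, rfl⟩
    simp only [SetLike.mem_coe]
    rw [← hH.eigenvectorBasis.sum_repr' (WithLp.toLp 2 (v i))]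
    refine Submodule.sum_mem _ fun j _ => ?_
    by_cases hj : hH.eigenvalues j = μ
    · exact Submodule.smul_mem _ _ (Submodule.subset_span ⟨⟨j, hj⟩, rfl⟩)
    · rw [hor i j hj, zero_smul]
      exact Submodule.zero_mem _
  have h1 := linearIndependent_le_span' _ hli _ hsp
  rw [Cardinal.mk_fintype, Nat.cast_le] at h1
  refine h1.trans ?_
  have h2 := Fintype.card_le_of_surjective (Set.rangeFactorization
    fun j : {j // hH.eigenvalues j = μ} => hH.eigenvectorBasis j.1)
    Set.rangeFactorization_surjective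
  have h3 : Fintype.card {j // hH.eigenvalues j = μ} =
      (univ.filter fun j => hH.eigenvalues j = μ).card := Fintype.card_subtype _
  rw [← h3]
  exact h2

section torus

variable {d₀ R L : ℕ} [NeZero L] {g : ℝ}

/-- free bits on the torus -/
def ext (β : Fin (L - 1) × Fin (L - 1) → Bool) (x y : ℕ) : Bool :=
  if h : x - 1 < L - 1 ∧ y - 1 < L - 1 then β (⟨x - 1, h.1⟩, ⟨y - 1, h.2⟩) else false

theorem tcfg_inj {β β' : Fin (L - 1) × Fin (L - 1) → Bool}
    (h : (tcfg (ext β) : Site L → Tile) = tcfg (ext β')) : β = β' := by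
  funext ⟨i, j⟩
  have hi := i.2
  have hj := j.2
  have h1 := congrFun h (((i + 1 : ℕ) : ZMod L), ((j + 1 : ℕ) : ZMod L))
  unfold tcfg at h1
  simp only at h1
  rw [ZMod.val_natCast_of_lt (by omega), ZMod.val_natCast_of_lt (by omega),
    cfg_I _ (by omega) (by omega), cfg_I _ (by omega) (by omega)] at h1
  have h2 := congrArg bit h1
  simp only [bit] at h2
  unfold ext at h2
  rw [dif_pos (by omega), dif_pos (by omega)] at h2
  simpa using h2

theorem slice_sum {ι : Type*} (s : Finset ι) (f : ι → (Site L → Fin (nT * d₀)) → ℂ)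
    (σ : Site L → Tile) : slice (∑ i ∈ s, f i) σ = ∑ i ∈ s, slice (f i) σ := by
  funext w
  unfold slice
  rw [Finset.sum_apply, Finset.sum_apply]

theorem plc_indep {ι : Type*} (σ : ι → Site L → Tile) (hσ : Function.Injective σ)
    {ψ : (Site L → Fin d₀) → ℂ} (hψ : ψ ≠ 0) : LinearIndependent ℂ fun i => plc (σ i) ψ := by
  classical
  rw [linearIndependent_iff']
  intro s g hg i hi
  have h1 : slice (∑ j ∈ s, g j • plc (σ j) ψ) (σ i) = 0 := by
    rw [hg]; rfl
  rw [slice_sum, Finset.sum_eq_single i] at h1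
  · rw [slice_smul, slice_plc, if_pos rfl] at h1
    exact (smul_eq_zero.1 h1).resolve_right hψ
  · intro j _ hj
    rw [slice_smul, slice_plc, if_neg (fun h => hj (hσ h.symm)), smul_zero]
  · intro h
    exact absurd hi h

/-- **Many eigenvalues directly above the ground state energy.** -/
theorem many (hR : 2 ≤ R) (h₀ : BoxOp d₀ R) {ψ : (Site L → Fin d₀) → ℂ} (hψ : ψ ≠ 0) {E : ℝ}
    (hE : ham h₀ L *ᵥ ψ = (E : ℂ) • ψ) (hH : (ham (hX g hR h₀) L).IsHermitian) :
    2 ^ ((L - 1) ^ 2) ≤ (univ.filter fun j => hH.eigenvalues j = E + g).card := by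
  classical
  have h1 := count_ge hH (E + g)
    (fun β : Fin (L - 1) × Fin (L - 1) → Bool => plc (tcfg (ext β) : Site L → Tile) ψ)
    (plc_indep _ (fun β β' h => tcfg_inj h) hψ) (fun β => by
      have := plc_eig (g := g) hR h₀ (tcfg (ext β) : Site L → Tile) ψ E hE
      rw [En_tcfg] at this
      simpa using this)
  refine le_trans (le_of_eq ?_) h1
  rw [Fintype.card_fun, Fintype.card_bool, Fintype.card_prod, Fintype.card_fin, sq]

end torus

/-- `exp (2 C (log L)^k)` is smaller than `2 ^ ((L - 1) ^ 2)` for large `L`. -/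
theorem growth (k : ℕ) (C : ℝ) : ∃ L₁ : ℕ, ∀ L : ℕ, L₁ ≤ L →
    Real.exp (2 * (C * Real.log L ^ k)) < 2 ^ ((L - 1) ^ 2) := by
  have h1 := (Asymptotics.isLittleO_iff.1 (Real.isLittleO_pow_log_id_atTop (n := k)) one_pos)
  have h2 := (tendsto_natCast_atTop_atTop (R := ℝ)).eventually h1
  obtain ⟨L₂, h3⟩ := Filter.eventually_atTop.1 h2
  obtain ⟨M, hM⟩ := exists_nat_ge (16 * |C| + 2)
  refine ⟨max L₂ (max M 2), fun L hL => ?_⟩
  have hL2 : L₂ ≤ L := (le_max_left _ _).trans hL
  have hLM : M ≤ L := ((le_max_left _ _).trans (le_max_right _ _)).trans hL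
  have hLt : 2 ≤ L := ((le_max_right _ _).trans (le_max_right _ _)).trans hL
  have h4 := h3 L hL2
  simp only [id, one_mul, Real.norm_eq_abs] at h4
  have hLr : (2 : ℝ) ≤ L := by exact_mod_cast hLt
  have hLM' : 16 * |C| + 2 ≤ (L : ℝ) := hM.trans (by exact_mod_cast hLM)
  rw [abs_of_nonneg (by linarith : (0 : ℝ) ≤ L)] at h4
  have h5 : 2 * (C * Real.log L ^ k) ≤ 2 * (|C| * L) := by
    have h6 : C * Real.log L ^ k ≤ |C| * |Real.log L ^ k| := by
      rw [← abs_mul]; exact le_abs_self _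
    have h7 : |C| * |Real.log L ^ k| ≤ |C| * L := mul_le_mul_of_nonneg_left h4 (abs_nonneg _)
    linarith
  have h8 : 2 * (|C| * L) < Real.log 2 * ((L : ℝ) - 1) ^ 2 := by
    have h9 : (1 : ℝ) / 2 < Real.log 2 := by
      have := Real.log_two_gt_d9
      linarith
    have h10 : (0 : ℝ) < ((L : ℝ) - 1) ^ 2 := by
      have : (1 : ℝ) ≤ (L : ℝ) - 1 := by linarith
      positivity
    have h11 : (1 : ℝ) / 2 * ((L : ℝ) - 1) ^ 2 < Real.log 2 * ((L : ℝ) - 1) ^ 2 :=
      mul_lt_mul_of_pos_right h9 h10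
    have h12 : (L : ℝ) ^ 2 / 4 ≤ ((L : ℝ) - 1) ^ 2 := by nlinarith
    have h13 : 2 * (|C| * L) ≤ (L : ℝ) ^ 2 / 8 := by nlinarith [abs_nonneg C]
    linarith
  have h14 : ((2 : ℝ) ^ ((L - 1) ^ 2)) = Real.exp (Real.log 2 * ((L : ℝ) - 1) ^ 2) := by
    have h15 : (((L - 1) ^ 2 : ℕ) : ℝ) = ((L : ℝ) - 1) ^ 2 := by
      push_cast [Nat.cast_sub (show 1 ≤ L by omega)]
      ring
    rw [← h15, mul_comm, Real.exp_nat_mul, Real.exp_log (by norm_num)]
  rw [h14]
  exact Real.exp_lt_exp.2 (h5.trans_lt h8)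

end Pool.Agent.K6.H5.TL
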