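import Pool.Agent.TH235.PP.ThermalCrit
import Pool.Agent.K6.H5.TL.Cfg

/-! The Hamiltonian: a given interaction plus the penalties of the tiles. -/

set_option autoImplicit false
set_option linter.unusedSectionVars false

open scoped BigOperators Matrix InnerProductSpace
open Finset Matrix Pool.Agent.TH235.PP

namespace Pool.Agent.K6.H5.TL

open Tile Ph

/-- the number of tiles -/
def nT : ℕ := Fintype.card Tile

/-- pairs of a tile and a basis state -/
noncomputable def pr {d₀ : ℕ} : Tile × Fin d₀ ≃ Fin (nT * d₀) :=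
  (Equiv.prodCongr (Fintype.equivFin Tile) (Equiv.refl _)).trans finProdFinEquiv

/-- the tile -/
noncomputable def tl {d₀ : ℕ} (i : Fin (nT * d₀)) : Tile := (pr.symm i).1

/-- the basis state -/
noncomputable def sp {d₀ : ℕ} (i : Fin (nT * d₀)) : Fin d₀ := (pr.symm i).2

theorem tl_pr {d₀ : ℕ} (t : Tile) (j : Fin d₀) : tl (pr (t, j)) = t := by simp [tl]

theorem sp_pr {d₀ : ℕ} (t : Tile) (j : Fin d₀) : sp (pr (t, j)) = j := by simp [sp]

theorem pr_tl_sp {d₀ : ℕ} (i : Fin (nT * d₀)) : pr (tl i, sp i) = i := by simp [tl, sp]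

theorem pr_ext {d₀ : ℕ} {i j : Fin (nT * d₀)} (h1 : tl i = tl j) (h2 : sp i = sp j) : i = j := by
  rw [← pr_tl_sp i, ← pr_tl_sp j, h1, h2]

/-- the site at the corner of the box is bad -/
def badBox {R : ℕ} (hR : 2 ≤ R) (p : Fin R × Fin R → Tile) : Prop :=
  ¬ Good (p (⟨0, by omega⟩, ⟨0, by omega⟩)) (p (⟨1, by omega⟩, ⟨0, by omega⟩))
    (p (⟨0, by omega⟩, ⟨1, by omega⟩))

open Classical in
/-- the interaction `h₀` plus the penalty `g` for a bad site -/
noncomputable def hX {d₀ R : ℕ} (g : ℝ) (hR : 2 ≤ R) (h₀ : BoxOp d₀ R) : BoxOp (nT * d₀) R := fun p q =>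
  (if ∀ x, tl (p x) = tl (q x) then h₀ (fun x => sp (p x)) (fun x => sp (q x)) else 0) +
    (if p = q ∧ badBox hR (fun x => tl (p x)) then (g : ℂ) else 0)

theorem hX_herm {d₀ R : ℕ} (g : ℝ) (hR : 2 ≤ R) (h₀ : BoxOp d₀ R) (hh : h₀.IsHermitian) :
    (hX g hR h₀).IsHermitian := by
  classical
  refine Matrix.IsHermitian.ext fun p q => ?_
  unfold hX
  rw [star_add]
  congr 1
  · by_cases h : ∀ x, tl (q x) = tl (p x)
    · rw [if_pos h, if_pos fun x => (h x).symm]
      exact hh.apply _ _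
    · rw [if_neg h, if_neg fun h' => h fun x => (h' x).symm, star_zero]
  · by_cases h : q = p
    · subst h
      by_cases h1 : badBox hR fun x => tl (q x)
      · rw [if_pos ⟨rfl, h1⟩]; exact Complex.conj_ofReal g
      · rw [if_neg fun h2 => h1 h2.2, star_zero]
    · rw [if_neg fun h2 => h h2.1, if_neg fun h2 => h h2.1.symm, star_zero]

open Classical in
/-- the number of bad sites -/
noncomputable def En {L : ℕ} [NeZero L] (σ : Site L → Tile) : ℕ :=
  (univ.filter fun u => ¬ GoodAt σ u).card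

open Classical in
/-- the vector `ψ` over the configuration `σ` of tiles -/
noncomputable def plc {d₀ L : ℕ} (σ : Site L → Tile) (ψ : (Site L → Fin d₀) → ℂ) :
    (Site L → Fin (nT * d₀)) → ℂ := fun s =>
  if ∀ v, tl (s v) = σ v then ψ (fun v => sp (s v)) else 0

/-- the blank configuration -/
def blank {L : ℕ} : Site L → Tile := fun _ => B

section torus

variable {d₀ R L : ℕ} [NeZero L] {g : ℝ}

theorem bad_iff (hR : 2 ≤ R) (σ : Site L → Tile) (u : Site L) :
    badBox hR (fun x => σ (sh u x)) ↔ ¬ GoodAt σ u := by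
  unfold badBox GoodAt sh
  simp

theorem term_hX (hR : 2 ≤ R) (h₀ : BoxOp d₀ R) (u : Site L) (s t : Site L → Fin (nT * d₀))
    [Decidable (∀ v, tl (s v) = tl (t v))] [Decidable (s = t ∧ ¬ GoodAt (fun v => tl (s v)) u)] :
    term (hX g hR h₀) u s t =
      (if ∀ v, tl (s v) = tl (t v) then term h₀ u (fun v => sp (s v)) (fun v => sp (t v)) else 0) +
        (if s = t ∧ ¬ GoodAt (fun v => tl (s v)) u then (g : ℂ) else 0) := by
  classical
  unfold term
  by_cases h1 : ∀ v, (∀ x : Fin R × Fin R, sh u x ≠ v) → s v = t v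
  · rw [if_pos h1]
    unfold hX
    congr 1
    · by_cases h2 : ∀ v, tl (s v) = tl (t v)
      · rw [if_pos h2, if_pos fun x => h2 _, if_pos fun v hv => congrArg sp (h1 v hv)]
      · rw [if_neg h2, if_neg]
        intro h3
        refine h2 fun v => ?_
        by_cases hv : ∀ x : Fin R × Fin R, sh u x ≠ v
        · rw [h1 v hv]
        · push Not at hv
          obtain ⟨x, rfl⟩ := hv
          exact h3 x
    · by_cases h2 : s = t
      · subst h2
        have h3 := bad_iff hR (fun v => tl (s v)) u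
        by_cases h4 : GoodAt (fun v => tl (s v)) u
        · rw [if_neg fun h5 => h3.1 h5.2 h4, if_neg fun h5 => h5.2 h4]
        · rw [if_pos ⟨rfl, h3.2 h4⟩, if_pos ⟨rfl, h4⟩]
      · have e2 : ¬ (s = t ∧ ¬ GoodAt (fun v => tl (s v)) u) := fun h5 => h2 h5.1
        have e1 : ¬ ((fun x : Fin R × Fin R => s (sh u x)) = (fun x => t (sh u x)) ∧
            badBox hR fun x => tl (s (sh u x))) := by
          rintro ⟨h5, -⟩
          refine h2 (funext fun v => ?_)
          by_cases hv : ∀ x : Fin R × Fin R, sh u x ≠ v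
          · exact h1 v hv
          · push Not at hv
            obtain ⟨x, rfl⟩ := hv
            exact congrFun h5 x
        rw [if_neg e2]
        exact if_neg e1
  · rw [if_neg h1]
    have h2 : s ≠ t := by
      rintro rfl
      exact h1 fun v _ => rfl
    have e2 : ¬ (s = t ∧ ¬ GoodAt (fun v => tl (s v)) u) := fun h5 => h2 h5.1
    rw [if_neg e2, add_zero]
    by_cases h3 : ∀ v, tl (s v) = tl (t v)
    · rw [if_pos h3, if_neg]
      intro h4
      exact h1 fun v hv => pr_ext (h3 v) (h4 v hv)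
    · rw [if_neg h3]

theorem ham_hX (hR : 2 ≤ R) (h₀ : BoxOp d₀ R) (s t : Site L → Fin (nT * d₀))
    [Decidable (∀ v, tl (s v) = tl (t v))] [Decidable (s = t)] :
    ham (hX g hR h₀) L s t =
      (if ∀ v, tl (s v) = tl (t v) then ham h₀ L (fun v => sp (s v)) (fun v => sp (t v)) else 0) +
        (if s = t then ((g * En (fun v => tl (s v)) : ℝ) : ℂ) else 0) := by
  classical
  unfold ham
  rw [Matrix.sum_apply, Matrix.sum_apply]
  have h1 : ∀ u : Site L, term (hX g hR h₀) u s t =
      (if ∀ v, tl (s v) = tl (t v) then term h₀ u (fun v => sp (s v)) (fun v => sp (t v)) else 0) +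
        (if s = t ∧ ¬ GoodAt (fun v => tl (s v)) u then (g : ℂ) else 0) := fun u => term_hX hR h₀ u s t
  rw [Finset.sum_congr rfl fun u _ => h1 u, Finset.sum_add_distrib]
  congr 1
  · by_cases h2 : ∀ v, tl (s v) = tl (t v)
    · rw [if_pos h2]
      exact Finset.sum_congr rfl fun u _ => if_pos h2
    · rw [if_neg h2]
      exact Finset.sum_eq_zero fun u _ => if_neg h2
  · by_cases h2 : s = t
    · rw [if_pos h2]
      unfold En
      rw [Finset.card_filter]
      push_cast
      rw [Finset.mul_sum]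
      refine Finset.sum_congr rfl fun u _ => ?_
      by_cases h3 : GoodAt (fun v => tl (s v)) u
      · rw [if_neg fun h4 => h4.2 h3, if_neg fun h4 => h4 h3]; simp
      · rw [if_pos ⟨h2, h3⟩, if_pos h3]; simp
    · rw [if_neg h2]
      exact Finset.sum_eq_zero fun u _ => if_neg fun h3 => h2 h3.1

/-- configurations of tiles and of the other system -/
noncomputable def J : (Site L → Tile) × (Site L → Fin d₀) ≃ (Site L → Fin (nT * d₀)) where
  toFun x := fun v => pr (x.1 v, x.2 v)
  invFun s := (fun v => tl (s v), fun v => sp (s v))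
  left_inv x := by simp [tl_pr, sp_pr]
  right_inv s := by
    funext v
    exact pr_tl_sp _

/-- the part of a vector over a configuration of tiles -/
noncomputable def slice (φ : (Site L → Fin (nT * d₀)) → ℂ) (σ : Site L → Tile) :
    (Site L → Fin d₀) → ℂ := fun w => φ (J (σ, w))

theorem slice_ext {φ φ' : (Site L → Fin (nT * d₀)) → ℂ} (h : ∀ σ, slice φ σ = slice φ' σ) :
    φ = φ' := by
  funext s
  have := congrFun (h (J.symm s).1) (J.symm s).2
  unfold slice at this
  rwa [Prod.mk.eta, Equiv.apply_symm_apply] at this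

theorem slice_smul (c : ℂ) (φ : (Site L → Fin (nT * d₀)) → ℂ) (σ : Site L → Tile) :
    slice (c • φ) σ = c • slice φ σ := rfl

theorem slice_sub (φ φ' : (Site L → Fin (nT * d₀)) → ℂ) (σ : Site L → Tile) :
    slice (φ - φ') σ = slice φ σ - slice φ' σ := rfl

theorem slice_mulVec (hR : 2 ≤ R) (h₀ : BoxOp d₀ R) (φ : (Site L → Fin (nT * d₀)) → ℂ)
    (σ : Site L → Tile) :
    slice (ham (hX g hR h₀) L *ᵥ φ) σ = ham h₀ L *ᵥ slice φ σ + ((g * En σ : ℝ) : ℂ) • slice φ σ := by
  classical
  funext w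
  show ∑ t, ham (hX g hR h₀) L (J (σ, w)) t * φ t = _
  rw [← Equiv.sum_comp J, Fintype.sum_prod_type]
  have h1 : ∀ σ' w', ham (hX g hR h₀) L (J (σ, w)) (J (σ', w')) =
      (if σ = σ' then ham h₀ L w w' else 0) + (if (σ, w) = (σ', w') then ((g * En σ : ℝ) : ℂ) else 0) := by
    intro σ' w'
    rw [ham_hX]
    have e1 : (fun v => tl (J (σ, w) v)) = σ := funext fun v => tl_pr _ _
    have e2 : (fun v => sp (J (σ, w) v)) = w := funext fun v => sp_pr _ _
    have e3 : (fun v => sp (J (σ', w') v)) = w' := funext fun v => sp_pr _ _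
    rw [e1, e2, e3]
    congr 1
    · by_cases h : σ = σ'
      · rw [if_pos h, if_pos]
        intro v
        rw [h]
        exact (tl_pr _ _).trans (tl_pr _ _).symm
      · rw [if_neg h, if_neg]
        intro h'
        refine h (funext fun v => ?_)
        have := h' v
        rwa [show tl (J (σ, w) v) = σ v from tl_pr _ _,
          show tl (J (σ', w') v) = σ' v from tl_pr _ _] at this
    · by_cases h : (σ, w) = (σ', w')
      · rw [if_pos h, if_pos (by rw [h])]
      · rw [if_neg h, if_neg fun h' => h (J.injective h')]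
  have h2 : ∀ σ', ∑ w', ham (hX g hR h₀) L (J (σ, w)) (J (σ', w')) * φ (J (σ', w')) =
      (if σ = σ' then ∑ w', ham h₀ L w w' * φ (J (σ', w')) else 0) +
        (if σ = σ' then ((g * En σ : ℝ) : ℂ) * φ (J (σ', w)) else 0) := by
    intro σ'
    by_cases h : σ = σ'
    · subst h
      rw [if_pos rfl, if_pos rfl]
      have h3 : ∀ w', ham (hX g hR h₀) L (J (σ, w)) (J (σ, w')) * φ (J (σ, w')) =
          ham h₀ L w w' * φ (J (σ, w')) + (if w = w' then ((g * En σ : ℝ) : ℂ) * φ (J (σ, w')) else 0) := by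
        intro w'
        rw [h1, if_pos rfl, add_mul]
        congr 1
        by_cases h4 : w = w'
        · rw [if_pos h4, if_pos (by rw [h4])]
        · rw [if_neg h4, if_neg (fun h5 => h4 (Prod.ext_iff.1 h5).2), zero_mul]
      rw [Finset.sum_congr rfl fun w' _ => h3 w', Finset.sum_add_distrib]
      congr 1
      rw [Finset.sum_ite_eq]
      simp
    · rw [if_neg h, if_neg h, add_zero]
      refine Finset.sum_eq_zero fun w' _ => ?_
      rw [h1, if_neg h, if_neg (fun h5 => h (Prod.ext_iff.1 h5).1), add_zero, zero_mul]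
  rw [Finset.sum_congr rfl fun σ' _ => h2 σ', Finset.sum_add_distrib, Finset.sum_ite_eq,
    Finset.sum_ite_eq]
  simp only [mem_univ, if_true]
  rfl

theorem slice_plc (σ : Site L → Tile) (ψ : (Site L → Fin d₀) → ℂ) (σ' : Site L → Tile)
    [Decidable (σ' = σ)] : slice (plc σ ψ) σ' = if σ' = σ then ψ else 0 := by
  funext w
  unfold slice plc
  have e3 : (fun v => sp (J (σ', w) v)) = w := funext fun v => sp_pr _ _
  rw [e3]
  by_cases h : σ' = σ
  · rw [if_pos h, if_pos]
    intro v
    rw [h]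
    exact tl_pr _ _
  · rw [if_neg h, if_neg]
    · rfl
    · intro h'
      refine h (funext fun v => ?_)
      rw [← h' v]
      exact (tl_pr _ _).symm

theorem normSq_slices (φ : (Site L → Fin (nT * d₀)) → ℂ) :
    normSq φ = ∑ σ, normSq (slice φ σ) := by
  unfold normSq
  rw [← Equiv.sum_comp J, Fintype.sum_prod_type]
  rfl

theorem normSq_slice_le (φ : (Site L → Fin (nT * d₀)) → ℂ) (σ : Site L → Tile) :
    normSq (slice φ σ) ≤ normSq φ := by
  rw [normSq_slices φ]
  exact Finset.single_le_sum (f := fun σ => normSq (slice φ σ))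
    (fun σ _ => Finset.sum_nonneg fun w _ => by positivity) (mem_univ σ)

theorem normSq_plc (σ : Site L → Tile) (ψ : (Site L → Fin d₀) → ℂ) :
    normSq (plc σ ψ) = normSq ψ := by
  classical
  rw [normSq_slices, Finset.sum_eq_single σ]
  · rw [slice_plc, if_pos rfl]
  · intro σ' _ h
    rw [slice_plc, if_neg h]
    unfold normSq
    simp
  · intro h
    exact absurd (mem_univ _) h

theorem plc_sub (σ : Site L → Tile) (ψ ψ' : (Site L → Fin d₀) → ℂ) :
    plc σ ψ - plc σ ψ' = plc σ (ψ - ψ') := by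
  classical
  refine slice_ext fun σ' => ?_
  rw [slice_sub, slice_plc, slice_plc, slice_plc]
  by_cases h : σ' = σ
  · rw [if_pos h, if_pos h, if_pos h]
  · rw [if_neg h, if_neg h, if_neg h, sub_zero]

theorem plc_eig (hR : 2 ≤ R) (h₀ : BoxOp d₀ R) (σ : Site L → Tile) (ψ : (Site L → Fin d₀) → ℂ)
    (E : ℝ) (h : ham h₀ L *ᵥ ψ = (E : ℂ) • ψ) :
    ham (hX g hR h₀) L *ᵥ plc σ ψ = ((E + g * En σ : ℝ) : ℂ) • plc σ ψ := by
  classical
  refine slice_ext fun σ' => ?_
  rw [slice_mulVec, slice_smul, slice_plc]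
  by_cases h1 : σ' = σ
  · subst h1
    rw [if_pos rfl, h, ← add_smul]
    push_cast
    rfl
  · rw [if_neg h1, Matrix.mulVec_zero, smul_zero, smul_zero, add_zero]

theorem En_eq_zero {σ : Site L → Tile} (h : En σ = 0) : σ = blank := by
  classical
  unfold En at h
  rw [Finset.card_eq_zero, Finset.filter_eq_empty_iff] at h
  funext x
  exact eq_blank (fun z => not_not.1 (h (mem_univ z))) x

theorem En_blank : En (blank : Site L → Tile) = 0 := by
  classical
  unfold En
  rw [Finset.card_eq_zero, Finset.filter_eq_empty_iff]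
  intro x _
  rw [not_not]
  exact ⟨rfl, rfl, fun h => absurd rfl h⟩

theorem En_tcfg (β : ℕ → ℕ → Bool) : En (tcfg β : Site L → Tile) = 1 := by
  classical
  unfold En
  rw [Finset.card_eq_one]
  refine ⟨0, ?_⟩
  ext z
  rw [mem_filter, mem_singleton, tcfg_good]
  simp

/-- **The gap.** -/
theorem gapped (hg : 0 < g) (hR : 2 ≤ R) (h₀ : BoxOp d₀ R) {Δ : ℝ} (hΔ : 0 < Δ) {ψ : (Site L → Fin d₀) → ℂ}
    (h : IsGappedGround (ham h₀ L) Δ ψ) :
    IsGappedGround (ham (hX g hR h₀) L) (min Δ g) (plc blank ψ) := by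
  classical
  obtain ⟨E, h1, h2, h3⟩ := h
  have hz : ∀ (E' : ℝ) (φ : (Site L → Fin (nT * d₀)) → ℂ),
      ham (hX g hR h₀) L *ᵥ φ = (E' : ℂ) • φ → ∀ σ,
        ham h₀ L *ᵥ slice φ σ = ((E' - g * En σ : ℝ) : ℂ) • slice φ σ := by
    intro E' φ hφ σ
    have h4 := slice_mulVec (g := g) hR h₀ φ σ
    rw [hφ, slice_smul] at h4
    have h5 : ham h₀ L *ᵥ slice φ σ = (E' : ℂ) • slice φ σ - ((g * En σ : ℝ) : ℂ) • slice φ σ := by
      rw [h4, add_sub_cancel_right]
    rw [h5, ← sub_smul]
    push_cast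
    rfl
  refine ⟨E, ?_, ?_, ?_⟩
  · have := plc_eig (g := g) hR h₀ blank ψ E h1
    rwa [En_blank, Nat.cast_zero, mul_zero, add_zero] at this
  · intro φ hφ
    have h4 := hz E φ hφ
    obtain ⟨c, hc⟩ := h2 (slice φ blank) (by
      have := h4 blank
      rwa [En_blank, Nat.cast_zero, mul_zero, sub_zero] at this)
    refine ⟨c, slice_ext fun σ => ?_⟩
    rw [slice_smul, slice_plc]
    by_cases h5 : σ = blank
    · rw [if_pos h5, h5, hc]
    · rw [if_neg h5, smul_zero]
      by_contra h6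
      have h7 : 1 ≤ En σ := Nat.one_le_iff_ne_zero.2 fun h8 => h5 (En_eq_zero h8)
      have h8 : (1 : ℝ) ≤ En σ := by exact_mod_cast h7
      have h10 : g * 1 ≤ g * En σ := mul_le_mul_of_nonneg_left h8 hg.le
      rcases h3 _ _ h6 (h4 σ) with h9 | h9
      · linarith
      · linarith
  · intro E' φ hφ0 hφ
    have h4 := hz E' φ hφ
    obtain ⟨σ, hσ⟩ : ∃ σ, slice φ σ ≠ 0 := by
      by_contra h5
      push Not at h5
      exact hφ0 (slice_ext fun σ => by rw [h5 σ]; rfl)
    have h5 : (0 : ℝ) ≤ g * En σ := mul_nonneg hg.le (Nat.cast_nonneg _)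
    rcases h3 _ _ hσ (h4 σ) with h9 | h9
    · rcases Nat.eq_zero_or_pos (En σ) with h6 | h6
      · left
        rw [h6, Nat.cast_zero, mul_zero, sub_zero] at h9
        exact h9
      · right
        have h8 : (1 : ℝ) ≤ En σ := by exact_mod_cast h6
        have h10 : g * 1 ≤ g * En σ := mul_le_mul_of_nonneg_left h8 hg.le
        have := min_le_right Δ g
        linarith
    · right
      have := min_le_left Δ g
      linarith

/-- the slices of a PEPS are PEPS -/
theorem peps_slice {D : ℕ} {φ : (Site L → Fin (nT * d₀)) → ℂ} (h : IsPEPS D φ)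
    (σ : Site L → Tile) : IsPEPS D (slice φ σ) := by
  obtain ⟨A, hA⟩ := h
  refine ⟨fun x i => A x (pr (σ x, i)), ?_⟩
  rw [hA]
  rfl

/-- a PEPS over a configuration of tiles is a PEPS -/
theorem peps_plc {D : ℕ} {ψ : (Site L → Fin d₀) → ℂ} (h : IsPEPS D ψ) (σ : Site L → Tile) :
    IsPEPS D (plc σ ψ) := by
  classical
  obtain ⟨A, hA⟩ := h
  refine ⟨fun x i => if tl i = σ x then A x (sp i) else fun _ _ _ _ => 0, ?_⟩
  funext s
  unfold plc
  by_cases h1 : ∀ v, tl (s v) = σ v
  · rw [if_pos h1, hA]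
    unfold contract
    refine Finset.sum_congr rfl fun a _ => Finset.sum_congr rfl fun b _ =>
      Finset.prod_congr rfl fun x _ => ?_
    simp only [if_pos (h1 x)]
  · rw [if_neg h1]
    push Not at h1
    obtain ⟨v, hv⟩ := h1
    unfold contract
    symm
    refine Finset.sum_eq_zero fun a _ => Finset.sum_eq_zero fun b _ =>
      Finset.prod_eq_zero (mem_univ v) ?_
    simp only [if_neg hv]

/-- **The approximability by PEPS does not change.** -/
theorem peps_iff {D : ℕ} {ε : ℝ} (ψ : (Site L → Fin d₀) → ℂ) :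
    (∃ φ : (Site L → Fin (nT * d₀)) → ℂ, IsPEPS D φ ∧ Real.sqrt (normSq (φ - plc blank ψ)) ≤ ε) ↔
      ∃ φ : (Site L → Fin d₀) → ℂ, IsPEPS D φ ∧ Real.sqrt (normSq (φ - ψ)) ≤ ε := by
  classical
  constructor
  · rintro ⟨φ, h1, h2⟩
    refine ⟨slice φ blank, peps_slice h1 _, (Real.sqrt_le_sqrt ?_).trans h2⟩
    have h3 := normSq_slice_le (φ - plc blank ψ) blank
    rwa [slice_sub, slice_plc, if_pos rfl] at h3
  · rintro ⟨φ, h1, h2⟩
    refine ⟨plc blank φ, peps_plc h1 _, ?_⟩
    rwa [plc_sub, normSq_plc]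

end torus

end Pool.Agent.K6.H5.TL
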