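import Mathlib

/-! An aperiodic tile set with a single defect.

The tiles are a blank tile `B`, a crossing `X`, horizontal and vertical walls `H`, `W`, and interior
tiles `I`.  On every torus the only configuration without bad sites is the blank one, but there are
`2 ^ ((L - 1) ^ 2)` configurations with exactly one bad site: a horizontal and a vertical wall meet
at this site, and the free bits of the other tiles are arbitrary. -/

set_option autoImplicit false
set_option linter.unusedSectionVars false

namespace Pool.Agent.K6.H5.TL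

/-- The phase of an interior tile: above the diagonal, below the diagonal, on the diagonal. -/
inductive Ph
  | U | V | D
  deriving DecidableEq

instance : Fintype Ph := ⟨{Ph.U, Ph.V, Ph.D}, fun x => by cases x <;> decide⟩

/-- The tiles. An interior tile has a phase, the type of its row, a digit `a + 1`, a carry `c - 1` and
a free bit. -/
inductive Tile
  | B | X | H | W
  | I (τ : Ph) (k : Bool) (a : Fin 3) (c : Fin 4) (β : Bool)
  deriving DecidableEq, Fintype

namespace Tile

/-- the phase -/
def ph : Tile → Option Ph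
  | I τ _ _ _ _ => some τ
  | _ => none

/-- the digit -/
def dg : Tile → ℕ
  | I _ _ a _ _ => a + 1
  | _ => 1

/-- the carry, plus one -/
def cr : Tile → ℕ
  | I _ _ _ c _ => c
  | _ => 0

/-- the type of the row -/
def kp : Tile → Bool
  | I _ k _ _ _ => k
  | _ => false

/-- the free bit -/
def bit : Tile → Bool
  | I _ _ _ _ b => b
  | _ => false

end Tile

open Tile Ph

/-- the denominator of the multiplier `2 / κ` of a row -/
def kap (k : Bool) : ℕ := if k then 3 else 1

/-- `r` may be the right neighbour of `s` -/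
def hor (s r : Tile) : Prop :=
  match s with
  | B => r = B
  | X => False
  | H => r = H ∨ r = X
  | W => ph r = some U ∨ ph r = some D
  | I U _ _ _ _ => ph r = some U ∨ ph r = some D
  | I V _ _ _ _ => ph r = some V ∨ r = W
  | I D _ _ _ _ => ph r = some V ∨ r = W

/-- `u` may be the upper neighbour of `s` -/
def ver (s u : Tile) : Prop :=
  match s with
  | B => u = B
  | X => False
  | H => ph u = some V ∨ ph u = some D
  | W => u = W ∨ u = X
  | I U _ _ _ _ => ph u = some U ∨ u = H
  | I V _ _ _ _ => ph u = some V ∨ ph u = some D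
  | I D _ _ _ _ => ph u = some U ∨ u = H

/-- multiplication of the digits of a row by `2` or `2 / 3` -/
def ari (s r u : Tile) : Prop :=
  ph s ≠ none → ph r ≠ none → ph u ≠ none →
    kp r = kp s ∧ 2 * dg s + cr s = kap (kp s) * dg u + cr r

/-- The tile `s` with right neighbour `r` and upper neighbour `u` is good. -/
def Good (s r u : Tile) : Prop := hor s r ∧ ver s u ∧ ari s r u

/-- the site is good -/
def GoodAt {L : ℕ} (σ : ZMod L × ZMod L → Tile) (x : ZMod L × ZMod L) : Prop :=
  Good (σ x) (σ (x.1 + 1, x.2)) (σ (x.1, x.2 + 1))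

theorem prop_all {L : ℕ} [NeZero L] (P : ZMod L → Prop) (x₀ : ZMod L) (h0 : P x₀)
    (h : ∀ x, P x → P (x + 1)) (x : ZMod L) : P x := by
  have h1 : ∀ n : ℕ, P (x₀ + n) := by
    intro n
    induction n with
    | zero => simpa using h0
    | succ n ih =>
      have := h _ ih
      rwa [add_assoc, ← Nat.cast_succ] at this
  have h2 := h1 (x - x₀).val
  rwa [ZMod.natCast_zmod_val, add_sub_cancel] at h2

section uniq

variable {L : ℕ} [NeZero L] {σ : ZMod L × ZMod L → Tile} (hσ : ∀ x, GoodAt σ x)

include hσ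

theorem no_X (x : ZMod L × ZMod L) : σ x ≠ X := by
  intro h
  have := (hσ x).1
  rw [h] at this
  exact this

theorem row_V {y : ZMod L} (h : ∀ x, ph (σ (x, y)) = some V ∨ ph (σ (x, y)) = some D) (x : ZMod L) :
    ph (σ (x, y)) = some V := by
  have h1 := (hσ (x - 1, y)).1
  have h2 := h (x - 1)
  have h3 := h x
  simp only [sub_add_cancel] at h1
  rcases hs : σ (x - 1, y) with _ | _ | _ | _ | ⟨τ, k, a, c, b⟩ <;> rw [hs] at h1 h2 <;>
    simp [ph] at h2
  rcases h2 with rfl | rfl
  · rcases h1 with h1 | h1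
    · exact h1
    · rw [h1] at h3; simp [ph] at h3
  · rcases h1 with h1 | h1
    · exact h1
    · rw [h1] at h3; simp [ph] at h3

theorem col_U {x : ZMod L} (h : ∀ y, ph (σ (x, y)) = some U ∨ ph (σ (x, y)) = some D) (y : ZMod L) :
    ph (σ (x, y)) = some U := by
  have h1 := (hσ (x, y - 1)).2.1
  have h2 := h (y - 1)
  have h3 := h y
  simp only [sub_add_cancel] at h1
  rcases hs : σ (x, y - 1) with _ | _ | _ | _ | ⟨τ, k, a, c, b⟩ <;> rw [hs] at h1 h2 <;>
    simp [ph] at h2
  rcases h2 with rfl | rfl
  · rcases h1 with h1 | h1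
    · exact h1
    · rw [h1] at h3; simp [ph] at h3
  · rcases h1 with h1 | h1
    · exact h1
    · rw [h1] at h3; simp [ph] at h3

theorem no_H (z : ZMod L × ZMod L) : σ z ≠ H := by
  obtain ⟨x₀, y₀⟩ := z
  intro h
  have hrow : ∀ x, σ (x, y₀) = H := by
    refine prop_all (fun x => σ (x, y₀) = H) x₀ h fun x hx => ?_
    have h1 := (hσ (x, y₀)).1
    simp only [hx] at h1
    rcases h1 with h1 | h1
    · exact h1
    · exact absurd h1 (no_X hσ _)
  have hall : ∀ y, ∀ x, ph (σ (x, y)) = some V := by
    refine prop_all (fun y => ∀ x, ph (σ (x, y)) = some V) (y₀ + 1) ?_ ?_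
    · refine row_V hσ fun x => ?_
      have h1 := (hσ (x, y₀)).2.1
      simp only [hrow x] at h1
      exact h1
    · intro y hy
      refine row_V hσ fun x => ?_
      have h1 := (hσ (x, y)).2.1
      have h2 := hy x
      rcases hs : σ (x, y) with _ | _ | _ | _ | ⟨τ, k, a, c, b⟩ <;> simp only [hs] at h1 h2 <;>
        simp [ph] at h2
      subst h2
      exact h1
  have := hall y₀ x₀
  rw [h] at this
  simp [ph] at this

theorem no_W (z : ZMod L × ZMod L) : σ z ≠ W := by
  obtain ⟨x₀, y₀⟩ := z
  intro h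
  have hcol : ∀ y, σ (x₀, y) = W := by
    refine prop_all (fun y => σ (x₀, y) = W) y₀ h fun y hy => ?_
    have h1 := (hσ (x₀, y)).2.1
    simp only [hy] at h1
    rcases h1 with h1 | h1
    · exact h1
    · exact absurd h1 (no_X hσ _)
  have hall : ∀ x, ∀ y, ph (σ (x, y)) = some U := by
    refine prop_all (fun x => ∀ y, ph (σ (x, y)) = some U) (x₀ + 1) ?_ ?_
    · refine col_U hσ fun y => ?_
      have h1 := (hσ (x₀, y)).1
      simp only [hcol y] at h1
      exact h1
    · intro x hx
      refine col_U hσ fun y => ?_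
      have h1 := (hσ (x, y)).1
      have h2 := hx y
      rcases hs : σ (x, y) with _ | _ | _ | _ | ⟨τ, k, a, c, b⟩ <;> simp only [hs] at h1 h2 <;>
        simp [ph] at h2
      subst h2
      exact h1
  have := hall x₀ y₀
  rw [h] at this
  simp [ph] at this

theorem all_B {z : ZMod L × ZMod L} (h : σ z = B) (x : ZMod L × ZMod L) : σ x = B := by
  obtain ⟨x₀, y₀⟩ := z
  obtain ⟨x₁, y₁⟩ := x
  have hrow : ∀ x, σ (x, y₀) = B := by
    refine prop_all (fun x => σ (x, y₀) = B) x₀ h fun x hx => ?_
    have h1 := (hσ (x, y₀)).1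
    simp only [hx] at h1
    exact h1
  refine prop_all (fun y => σ (x₁, y) = B) y₀ (hrow x₁) (fun y hy => ?_) y₁
  have h1 := (hσ (x₁, y)).2.1
  simp only [hy] at h1
  exact h1

theorem not_all_I (h : ∀ x, ph (σ x) ≠ none) : False := by
  have hk : ∀ x y, kp (σ (x, y)) = kp (σ (0, y)) := by
    intro x y
    refine prop_all (fun x => kp (σ (x, y)) = kp (σ (0, y))) 0 rfl (fun x hx => ?_) x
    have h1 := ((hσ (x, y)).2.2 (h _) (h _) (h _)).1
    simp only at h1
    rw [h1, hx]
  obtain ⟨S, hS⟩ : ∃ S : ZMod L → ℕ, S = fun y => ∑ x, dg (σ (x, y)) := ⟨_, rfl⟩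
  have hrel : ∀ y, 2 * S y = kap (kp (σ (0, y))) * S (y + 1) := by
    intro y
    have h1 : ∑ x, (2 * dg (σ (x, y)) + cr (σ (x, y))) =
        ∑ x, (kap (kp (σ (0, y))) * dg (σ (x, y + 1)) + cr (σ (x + 1, y))) := by
      refine Finset.sum_congr rfl fun x _ => ?_
      have h2 := ((hσ (x, y)).2.2 (h _) (h _) (h _)).2
      simp only [hk x y] at h2
      exact h2
    rw [Finset.sum_add_distrib, Finset.sum_add_distrib, ← Finset.mul_sum, ← Finset.mul_sum] at h1
    have h3 : ∑ x, cr (σ (x + 1, y)) = ∑ x, cr (σ (x, y)) :=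
      Equiv.sum_comp (Equiv.addRight (1 : ZMod L)) fun x => cr (σ (x, y))
    rw [h3] at h1
    rw [hS]
    exact Nat.add_right_cancel h1
  have hpos : ∀ y, 0 < S y := by
    intro y
    rw [hS]
    refine Finset.sum_pos (fun x _ => ?_) ⟨0, Finset.mem_univ _⟩
    unfold dg
    split <;> omega
  have hprod : ∏ y, (2 * S y) = ∏ y, (kap (kp (σ (0, y))) * S (y + 1)) :=
    Finset.prod_congr rfl fun y _ => hrel y
  have h7 : ∏ x, S (x + 1) = ∏ x, S x := Equiv.prod_comp (Equiv.addRight (1 : ZMod L)) S
  rw [Finset.prod_mul_distrib, Finset.prod_mul_distrib, h7] at hprod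
  have hP : 0 < ∏ y, S y := Finset.prod_pos fun y _ => hpos y
  have h4 := Nat.eq_of_mul_eq_mul_right hP hprod
  have h5 : Odd (∏ y : ZMod L, kap (kp (σ (0, y)))) := by
    refine Finset.prod_induction _ Odd (fun a b ha hb => ha.mul hb) odd_one fun y _ => ?_
    unfold kap
    split <;> decide
  rw [← h4, Finset.prod_const, Finset.card_univ, ZMod.card] at h5
  have h6 : Even (2 ^ L) := (even_two).pow_of_ne_zero (NeZero.ne L)
  exact (Nat.not_odd_iff_even.2 h6) h5

/-- **The blank configuration is the only one without bad sites.** -/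
theorem eq_blank (x : ZMod L × ZMod L) : σ x = B := by
  by_cases hB : ∃ z, σ z = B
  · obtain ⟨z, hz⟩ := hB
    exact all_B hσ hz x
  · push Not at hB
    exfalso
    refine not_all_I hσ fun z => ?_
    rcases hs : σ z with _ | _ | _ | _ | ⟨τ, k, a, c, b⟩
    · exact absurd hs (hB z)
    · exact absurd hs (no_X hσ z)
    · exact absurd hs (no_H hσ z)
    · exact absurd hs (no_W hσ z)
    · simp [ph]

end uniq

end Pool.Agent.K6.H5.TL
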